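import Pool.Agent.W425.GN.Defs

set_option autoImplicit false

namespace Pool.Agent.W509.GN

open MvPolynomial Pool.Agent.W425.GN

section
variable {n : ℕ} {R : Type} [CommRing R]

theorem dd_mono (β : Fin n → ℕ) (w : Fin n →₀ ℕ) (c : R) :
    dd β (monomial w c) = monomial (w - Finsupp.equivFunOnFinite.symm β)
      (c * ∏ i, ((w i).descFactorial (β i) : R)) := by
  have h : (monomial w c : MvPolynomial (Fin n) R) = c • (basisMonomials (Fin n) R) w := by
    rw [coe_basisMonomials, smul_monomial, smul_eq_mul, mul_one]
  rw [h, map_smul, dd, Module.Basis.constr_basis, smul_monomial, smul_eq_mul]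

theorem dd_zero (φ : MvPolynomial (Fin n) R) : dd (fun _ => 0) φ = φ := by
  induction φ using MvPolynomial.induction_on' with
  | monomial w c =>
    rw [dd_mono]
    have h : (Finsupp.equivFunOnFinite.symm (fun _ : Fin n => 0)) = (0 : Fin n →₀ ℕ) := by
      ext i; simp
    rw [h]
    simp
  | add p q hp hq => rw [map_add, hp, hq]

theorem dd_succ (β : Fin n → ℕ) (i : Fin n) (φ : MvPolynomial (Fin n) R) :
    pderiv i (dd β φ) = dd (fun j => β j + if i = j then 1 else 0) φ := by
  induction φ using MvPolynomial.induction_on' with
  | monomial w c =>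
    rw [dd_mono, dd_mono, pderiv_monomial]
    have h : (Finsupp.equivFunOnFinite.symm (fun j : Fin n => β j + if i = j then 1 else 0)) =
        Finsupp.equivFunOnFinite.symm β + Finsupp.single i 1 := by
      ext j
      simp [Finsupp.single_apply]
    rw [h, tsub_add_eq_tsub_tsub]
    congr 1
    rw [mul_assoc]
    congr 1
    have h2 : ∏ j, ((w j).descFactorial (β j + if i = j then 1 else 0)) =
        (∏ j, (w j).descFactorial (β j)) * (w i - β i) := by
      rw [← Finset.mul_prod_erase _ _ (Finset.mem_univ i),
        ← Finset.mul_prod_erase Finset.univ (fun j => (w j).descFactorial (β j))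
          (Finset.mem_univ i)]
      have h3 : ∏ j ∈ Finset.univ.erase i,
          (w j).descFactorial (β j + if i = j then 1 else 0) =
          ∏ j ∈ Finset.univ.erase i, (w j).descFactorial (β j) := by
        apply Finset.prod_congr rfl
        intro j hj
        have : i ≠ j := fun h => (Finset.ne_of_mem_erase hj) h.symm
        simp [this]
      rw [h3]
      simp only [if_true, Nat.descFactorial_succ]
      ring
    have h4 := congrArg (fun z : ℕ => (z : R)) h2
    push_cast at h4
    rw [h4]
    simp
  | add p q hp hq => rw [map_add, map_add, map_add, hp, hq]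

/-- the monomial `x ^ α` -/
noncomputable def xm (R : Type) [CommRing R] (α : Fin n → ℕ) : MvPolynomial (Fin n) R :=
  ∏ i, X i ^ α i

theorem xm_eq (α : Fin n → ℕ) :
    xm R α = monomial (Finsupp.equivFunOnFinite.symm α) 1 := by
  rw [xm, monomial_eq, Finsupp.prod_fintype _ _ (by simp)]
  simp

theorem xm_mul (α : Fin n → ℕ) (i : Fin n) :
    xm R (fun j => α j + if i = j then 1 else 0) = X i * xm R α := by
  unfold xm
  simp only [pow_add, Finset.prod_mul_distrib]
  rw [mul_comm]
  congr 1
  rw [Finset.prod_eq_single i]
  · simp
  · intro j _ hj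
    simp [hj.symm]
  · simp

theorem xm_deriv (α : Fin n → ℕ) (i : Fin n) :
    pderiv i (xm R α) = (α i : R) • xm R (fun j => α j - if i = j then 1 else 0) := by
  rw [xm_eq, xm_eq, pderiv_monomial, smul_monomial]
  have h : (Finsupp.equivFunOnFinite.symm α - Finsupp.single i 1 : Fin n →₀ ℕ) =
      Finsupp.equivFunOnFinite.symm fun j => α j - if i = j then 1 else 0 := by
    ext j
    simp [Finsupp.single_apply]
  rw [h]
  simp

theorem act_mono (m : Sy n →₀ ℕ) (c : R) (s : ℕ) (φ : MvPolynomial (Fin n) R) :
    act (monomial m c) s φ = c • (((s : R) ^ m none) • (xm R (fun i => m (some (Sum.inl i))) *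
      dd (fun i => m (some (Sum.inr i))) φ)) := by
  have h : (monomial m c : MvPolynomial (Sy n) R) = c • (basisMonomials (Sy n) R) m := by
    rw [coe_basisMonomials, smul_monomial, smul_eq_mul, mul_one]
  rw [h, act, map_smul, actL, Module.Basis.constr_basis]
  rfl

theorem act_add (P Q : MvPolynomial (Sy n) R) (s : ℕ) (φ : MvPolynomial (Fin n) R) :
    act (P + Q) s φ = act P s φ + act Q s φ := by
  unfold act
  rw [map_add]

end

theorem a1 : TaskA1 := by
  intro n R _ P s φ
  refine ⟨?_, ?_, ?_, ?_, ?_, ?_⟩
  · have h : (1 : MvPolynomial (Sy n) R) = monomial 0 1 := rfl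
    rw [h, act_mono]
    simp only [Finsupp.coe_zero, Pi.zero_apply, pow_zero, one_smul, dd_zero]
    simp [xm]
  · induction P using MvPolynomial.induction_on' with
    | monomial m c =>
      have h : ls (monomial m c) = (monomial (Finsupp.single none 1 + m) c :
          MvPolynomial (Sy n) R) := by
        rw [ls, X, monomial_mul, one_mul]
      rw [h, act_mono, act_mono]
      simp only [Finsupp.add_apply, Finsupp.single_apply, reduceCtorEq, if_false, if_true,
        zero_add]
      rw [smul_eq_C_mul, smul_eq_C_mul, smul_eq_C_mul, smul_eq_C_mul]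
      simp only [map_pow, map_natCast]
      ring
    | add p q hp hq =>
      have h : ls (p + q) = ls p + ls q := by rw [ls, ls, ls, mul_add]
      rw [h, act_add, act_add, hp, hq, mul_add]
  · intro i
    induction P using MvPolynomial.induction_on' with
    | monomial m c =>
      have h : lx i (monomial m c) = (monomial (Finsupp.single (some (Sum.inl i)) 1 + m) c :
          MvPolynomial (Sy n) R) := by
        rw [lx, X, monomial_mul, one_mul]
      rw [h, act_mono, act_mono]
      have h1 : (fun j : Fin n => (Finsupp.single (some (Sum.inl i)) 1 + m : Sy n →₀ ℕ)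
          (some (Sum.inl j))) = fun j => m (some (Sum.inl j)) + if i = j then 1 else 0 := by
        funext j
        simp [Finsupp.single_apply, add_comm]
      have h2 : (fun j : Fin n => (Finsupp.single (some (Sum.inl i)) 1 + m : Sy n →₀ ℕ)
          (some (Sum.inr j))) = fun j => m (some (Sum.inr j)) := by
        funext j
        simp [Finsupp.single_apply]
      have h3 : (Finsupp.single (some (Sum.inl i)) 1 + m : Sy n →₀ ℕ) none = m none := by
        simp [Finsupp.single_apply]
      rw [h1, h2, h3, xm_mul]
      rw [smul_eq_C_mul, smul_eq_C_mul, smul_eq_C_mul, smul_eq_C_mul]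
      ring
    | add p q hp hq =>
      have h : lx i (p + q) = lx i p + lx i q := by rw [lx, lx, lx, mul_add]
      rw [h, act_add, act_add, hp, hq, mul_add]
  · intro i
    induction P using MvPolynomial.induction_on' with
    | monomial m c =>
      have h : ld i (monomial m c) = (monomial (Finsupp.single (some (Sum.inr i)) 1 + m) c :
          MvPolynomial (Sy n) R) + monomial (m - Finsupp.single (some (Sum.inl i)) 1)
            (c * m (some (Sum.inl i))) := by
        rw [ld, X, monomial_mul, one_mul, pderiv_monomial]
      rw [h, act_add, act_mono, act_mono, act_mono]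
      have h1 : (fun j : Fin n => (Finsupp.single (some (Sum.inr i)) 1 + m : Sy n →₀ ℕ)
          (some (Sum.inr j))) = fun j => m (some (Sum.inr j)) + if i = j then 1 else 0 := by
        funext j
        simp [Finsupp.single_apply, add_comm]
      have h2 : (fun j : Fin n => (Finsupp.single (some (Sum.inr i)) 1 + m : Sy n →₀ ℕ)
          (some (Sum.inl j))) = fun j => m (some (Sum.inl j)) := by
        funext j
        simp [Finsupp.single_apply]
      have h3 : (Finsupp.single (some (Sum.inr i)) 1 + m : Sy n →₀ ℕ) none = m none := by
        simp [Finsupp.single_apply]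
      have h4 : (fun j : Fin n => (m - Finsupp.single (some (Sum.inl i)) 1 : Sy n →₀ ℕ)
          (some (Sum.inr j))) = fun j => m (some (Sum.inr j)) := by
        funext j
        simp [Finsupp.single_apply]
      have h5 : (fun j : Fin n => (m - Finsupp.single (some (Sum.inl i)) 1 : Sy n →₀ ℕ)
          (some (Sum.inl j))) = fun j => m (some (Sum.inl j)) - if i = j then 1 else 0 := by
        funext j
        simp [Finsupp.single_apply]
      have h6 : (m - Finsupp.single (some (Sum.inl i)) 1 : Sy n →₀ ℕ) none = m none := by
        simp [Finsupp.single_apply]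
      rw [h1, h2, h3, h4, h5, h6, Derivation.map_smul, Derivation.map_smul, Derivation.leibniz,
        xm_deriv, dd_succ]
      simp only [smul_eq_mul, smul_eq_C_mul, map_mul]
      ring
    | add p q hp hq =>
      have h : ld i (p + q) = ld i p + ld i q := by
        rw [ld, ld, ld, mul_add, map_add]
        ring
      rw [h, act_add, act_add, hp, hq, map_add]
  · intro ψ
    induction P using MvPolynomial.induction_on' with
    | monomial m c =>
      rw [act_mono, act_mono, act_mono, map_add, mul_add, smul_add, smul_add]
    | add p q hp hq =>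
      rw [act_add, act_add, act_add, hp, hq]
      ring
  · intro a
    induction P using MvPolynomial.induction_on' with
    | monomial m c =>
      rw [act_mono, act_mono, ← smul_eq_C_mul, map_smul]
      simp only [smul_eq_C_mul]
      ring
    | add p q hp hq =>
      rw [act_add, act_add, hp, hq, mul_add]

end Pool.Agent.W509.GN
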